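import Pool.Agent.Lib.CFT.B18
import Pool.Agent.Lib.CFT.B08

/-! # Chebotarev density theorem, part 1: Frobenius elements at a prime of a Galois extension, decomposition group, fibres -/

open NumberField IsDedekindDomain
open scoped Pointwise

namespace CHEB

open CFT

variable {K : Type} [Field K] [NumberField K] {L : Type} [Field L] [NumberField L] [Algebra K L]

set_option linter.unusedSectionVars false
set_option linter.style.haveILetI false

variable (K) in
/-- `s` is a Frobenius element at the prime `W` of `L`. -/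
def FrAt (W : Pr L) (s : L ≃ₐ[K] L) : Prop := ∀ x : 𝓞 L, s • x - x ^ Nm (below K W) ∈ W.asIdeal

theorem frAt_unique [IsGalois K L] {W : Pr L} (hW : Unr K L (below K W)) {s t : L ≃ₐ[K] L} (hs : FrAt K W s) (ht : FrAt K W t) :
    s = t := by
  refine eq_of_cong W (hW W rfl) fun x => ?_
  have h := W.asIdeal.sub_mem (hs x) (ht x)
  rwa [sub_sub_sub_cancel_right] at h

theorem frAt_pow {W : Pr L} {s : L ≃ₐ[K] L} (hs : FrAt K W s) (k : ℕ) (x : 𝓞 L) :
    (s ^ k) • x - x ^ (Nm (below K W) ^ k) ∈ W.asIdeal := by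
  induction k with
  | zero => simp
  | succ k ih =>
    have h1 := hs ((s ^ k) • x)
    have h2 : ((s ^ k) • x) ^ Nm (below K W) - (x ^ (Nm (below K W) ^ k)) ^ Nm (below K W) ∈ W.asIdeal :=
      Ideal.mem_of_dvd _ (sub_dvd_pow_sub_pow _ _ _) ih
    have h3 := W.asIdeal.add_mem h1 h2
    rw [sub_add_sub_cancel, ← mul_smul, ← pow_succ', ← pow_mul, ← pow_succ] at h3
    exact h3

theorem two_le_Nm (v : Pr K) : 2 ≤ Nm v := by
  have h1 := Nm_pos v
  have h2 : Nm v ≠ 1 := fun h => v.isPrime.ne_top (Ideal.absNorm_eq_one_iff.1 h)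
  omega

/-- The order of a Frobenius element at an unramified prime is the residue degree. -/
theorem order_frAt [IsGalois K L] {W : Pr L} (hW : Unr K L (below K W)) {s : L ≃ₐ[K] L} (hs : FrAt K W s) :
    orderOf s = W.asIdeal.inertiaDeg (𝓞 K) := by
  obtain ⟨q, hqdef⟩ : ∃ q : ℕ, q = Nm (below K W) := ⟨_, rfl⟩
  have hq : 2 ≤ q := by rw [hqdef]; exact two_le_Nm _
  have hfin : Finite (𝓞 L ⧸ W.asIdeal) := b17_fin W
  have : W.asIdeal.IsMaximal := W.isMaximal
  letI : Field (𝓞 L ⧸ W.asIdeal) := Ideal.Quotient.field W.asIdeal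
  letI : Fintype (𝓞 L ⧸ W.asIdeal) := Fintype.ofFinite _
  have hcard : Fintype.card (𝓞 L ⧸ W.asIdeal) = q ^ W.asIdeal.inertiaDeg (𝓞 K) := by
    rw [hqdef, ← Nm_below W, ← Nat.card_eq_fintype_card]
    unfold Nm
    rw [Ideal.absNorm_apply, Submodule.cardQuot_apply]
  have h1 : s ^ W.asIdeal.inertiaDeg (𝓞 K) = 1 := by
    refine eq_of_cong W (hW W rfl) fun x => ?_
    have h2 := frAt_pow hs (W.asIdeal.inertiaDeg (𝓞 K)) x
    rw [← hqdef] at h2
    have h3 : x ^ (q ^ W.asIdeal.inertiaDeg (𝓞 K)) - x ∈ W.asIdeal := by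
      rw [← Ideal.Quotient.eq_zero_iff_mem, map_sub, map_pow, ← hcard, FiniteField.pow_card, sub_self]
    have h4 := W.asIdeal.add_mem h2 h3
    rw [one_smul]
    rwa [sub_add_sub_cancel] at h4
  have h2 : 0 < orderOf s := orderOf_pos _
  have h3 : ∀ x : 𝓞 L ⧸ W.asIdeal, x ^ (q ^ orderOf s) = x := by
    intro x
    obtain ⟨x, rfl⟩ := Ideal.Quotient.mk_surjective x
    have h4 := frAt_pow hs (orderOf s) x
    rw [← hqdef, pow_orderOf_eq_one, one_smul, ← Ideal.Quotient.eq_zero_iff_mem, map_sub, map_pow, sub_eq_zero] at h4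
    exact h4.symm
  have h4 : 1 < q ^ orderOf s := Nat.one_lt_pow h2.ne' (by omega)
  have h5 : Fintype.card (𝓞 L ⧸ W.asIdeal) - 1 ∣ q ^ orderOf s - 1 := by
    rw [← FiniteField.forall_pow_eq_one_iff]
    intro x
    apply Units.ext
    rw [Units.val_pow_eq_pow_val, Units.val_one]
    have h6 := h3 x.1
    have h7 : q ^ orderOf s = (q ^ orderOf s - 1) + 1 := by omega
    rw [h7, pow_succ] at h6
    exact mul_eq_right₀ x.ne_zero |>.1 h6
  have h6 := Nat.le_of_dvd (by omega) h5
  rw [hcard] at h6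
  have h7 : q ^ W.asIdeal.inertiaDeg (𝓞 K) ≤ q ^ orderOf s := by omega
  have h8 := (Nat.pow_le_pow_iff_right (by omega)).1 h7
  have h9 := Nat.le_of_dvd (f_pos (K := K) W) (orderOf_dvd_of_pow_eq_one h1)
  omega

/-! ## The action on the primes -/

/-- The prime `g W`. -/
noncomputable def act (g : L ≃ₐ[K] L) (W : Pr L) : Pr L where
  asIdeal := W.asIdeal.comap (MulSemiringAction.toRingHom (L ≃ₐ[K] L) (𝓞 L) g⁻¹)
  isPrime := by
    have := W.isPrime
    exact Ideal.comap_isPrime _ _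
  ne_bot := by
    obtain ⟨x, hx, hx0⟩ := Submodule.exists_mem_ne_zero_of_ne_bot W.ne_bot
    intro h
    have h1 : g • x ∈ W.asIdeal.comap (MulSemiringAction.toRingHom (L ≃ₐ[K] L) (𝓞 L) g⁻¹) := by
      rw [Ideal.mem_comap]
      show g⁻¹ • (g • x) ∈ W.asIdeal
      rw [inv_smul_smul]
      exact hx
    rw [h, Ideal.mem_bot] at h1
    apply hx0
    have h2 := congrArg (fun z => g⁻¹ • z) h1
    simpa using h2

theorem mem_act {g : L ≃ₐ[K] L} {W : Pr L} {x : 𝓞 L} : x ∈ (act g W).asIdeal ↔ g⁻¹ • x ∈ W.asIdeal := Iff.rfl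

theorem act_ext {W W' : Pr L} (h : ∀ x : 𝓞 L, x ∈ W.asIdeal ↔ x ∈ W'.asIdeal) : W = W' := by
  apply HeightOneSpectrum.ext
  ext x
  exact h x

theorem act_one (W : Pr L) : act (1 : L ≃ₐ[K] L) W = W := by
  apply act_ext
  intro x
  rw [mem_act, inv_one, one_smul]

theorem act_mul (g h : L ≃ₐ[K] L) (W : Pr L) : act (g * h) W = act g (act h W) := by
  apply act_ext
  intro x
  rw [mem_act, mem_act, mem_act, mul_inv_rev, mul_smul]

theorem below_act (g : L ≃ₐ[K] L) (W : Pr L) : below K (act g W) = below K W := by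
  apply HeightOneSpectrum.ext
  ext x
  show algebraMap (𝓞 K) (𝓞 L) x ∈ (act g W).asIdeal ↔ algebraMap (𝓞 K) (𝓞 L) x ∈ W.asIdeal
  rw [mem_act]
  have h1 : g⁻¹ • algebraMap (𝓞 K) (𝓞 L) x = algebraMap (𝓞 K) (𝓞 L) x := by
    apply RingOfIntegers.ext
    show g⁻¹ (algebraMap K L (x : K)) = algebraMap K L (x : K)
    exact AlgEquiv.commutes _ _
  rw [h1]

theorem trans_act [IsGalois K L] (W W' : Pr L) (h : below K W = below K W') : ∃ g : L ≃ₐ[K] L, act g W = W' := by
  obtain ⟨g, hg⟩ := b17_trans (K := K) W W' h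
  refine ⟨g, act_ext fun x => ?_⟩
  rw [mem_act]
  exact (hg x).symm

/-- Conjugation of Frobenius elements. -/
theorem frAt_act (g s : L ≃ₐ[K] L) (W : Pr L) (hs : FrAt K W s) : FrAt K (act g W) (g * s * g⁻¹) := by
  intro x
  rw [below_act, mem_act]
  have h := hs (g⁻¹ • x)
  have e : g⁻¹ • ((g * s * g⁻¹) • x - x ^ Nm (below K W)) = s • (g⁻¹ • x) - (g⁻¹ • x) ^ Nm (below K W) := by
    rw [smul_sub, smul_pow', ← mul_smul, ← mul_smul]
    congr 2
    group
  rw [e]
  exact h

theorem frAt_exists [IsGalois K L] (W : Pr L) : ∃ s : L ≃ₐ[K] L, FrAt K W s := fr_one (K := K) W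

/-- A Frobenius element stabilises its prime. -/
theorem act_frob {W : Pr L} {s : L ≃ₐ[K] L} (hs : FrAt K W s) : act s W = W := by
  have h1 : ∀ x ∈ W.asIdeal, s • x ∈ W.asIdeal := by
    intro x hx
    have h2 := hs x
    have h3 : x ^ Nm (below K W) ∈ W.asIdeal := W.asIdeal.pow_mem_of_mem hx _ (Nm_pos _)
    have h4 := W.asIdeal.add_mem h2 h3
    rwa [sub_add_cancel] at h4
  apply act_ext
  intro x
  rw [mem_act]
  constructor
  · intro h
    have h2 := h1 _ h
    rwa [smul_inv_smul] at h2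
  · intro h
    have h2 : s • (s⁻¹ • x) ∈ W.asIdeal := by rwa [smul_inv_smul]
    have h3 := hs (s⁻¹ • x)
    have h4 := W.asIdeal.sub_mem h2 h3
    rw [sub_sub_cancel] at h4
    exact W.isPrime.mem_of_pow_mem _ h4

theorem act_pow {W : Pr L} {s : L ≃ₐ[K] L} (hs : act s W = W) (k : ℕ) : act (s ^ k) W = W := by
  induction k with
  | zero => rw [pow_zero, act_one]
  | succ k ih => rw [pow_succ, act_mul, hs, ih]

/-- The stabiliser of an unramified prime is generated by the Frobenius element. -/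
theorem mem_zpowers_of_act [IsGalois K L] {W : Pr L} (hW : Unr K L (below K W)) {s : L ≃ₐ[K] L} (hs : FrAt K W s)
    {g : L ≃ₐ[K] L} (hg : act g W = W) : g ∈ Subgroup.zpowers s := by
  classical
  have hG : IsGaloisGroup (L ≃ₐ[K] L) (𝓞 K) (𝓞 L) := b16_gal
  have hp := W.isPrime
  have hv := (below K W).isMaximal
  have hvp := (below K W).isPrime
  have hl : W.asIdeal.LiesOver (below K W).asIdeal := ⟨rfl⟩
  have hfin : Finite (𝓞 K ⧸ (below K W).asIdeal) := Ring.HasFiniteQuotients.finiteQuotient (below K W).ne_bot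
  have hperf : PerfectField (below K W).asIdeal.ResidueField := by
    have : Finite (below K W).asIdeal.ResidueField :=
      Finite.of_surjective _ (Ideal.bijective_algebraMap_quotient_residueField (below K W).asIdeal).surjective
    infer_instance
  have h1 := Ideal.card_stabilizer_eq_card_inertia_mul_finrank (G := L ≃ₐ[K] L) (below K W).asIdeal W.asIdeal
  rw [b16_card W, hW W rfl, one_mul, ← order_frAt hW hs, ← Nat.card_zpowers] at h1
  have hsub : ∀ h : L ≃ₐ[K] L, act h W = W → h ∈ MulAction.stabilizer (L ≃ₐ[K] L) W.asIdeal := by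
    intro h hh
    rw [MulAction.mem_stabilizer_iff, Ideal.pointwise_smul_eq_comap]
    exact congrArg HeightOneSpectrum.asIdeal hh
  have h2 : Subgroup.zpowers s ≤ MulAction.stabilizer (L ≃ₐ[K] L) W.asIdeal := by
    rw [Subgroup.zpowers_le]
    exact hsub s (act_frob hs)
  have h3 := Subgroup.eq_of_le_of_card_ge h2 h1.le
  rw [h3]
  exact hsub g hg

/-- The number of primes above an unramified `v` with Frobenius element `σ`, times the order of `σ`, is the order of the centraliser. -/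
theorem fibre_card [IsGalois K L] (v : Pr K) (hv : Unr K L v) (σ : L ≃ₐ[K] L) (W₀ : Pr L) (hW₀ : below K W₀ = v)
    (hσ : FrAt K W₀ σ) : Set.ncard {W : Pr L | below K W = v ∧ FrAt K W σ} * orderOf σ = Nat.card (Subgroup.centralizer {σ}) := by
  classical
  subst hW₀
  set C := Subgroup.centralizer {σ} with hC
  have hmemC : ∀ g : L ≃ₐ[K] L, g ∈ C ↔ g * σ * g⁻¹ = σ := by
    intro g
    rw [hC, Subgroup.mem_centralizer_singleton_iff]
    constructor
    · intro h
      rw [h]
      group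
    · intro h
      have := congrArg (fun z => z * g) h
      simp only [mul_assoc, inv_mul_cancel, mul_one] at this
      exact this
  -- the map `g ↦ g W₀`
  have hmap : ∀ g ∈ C, act g W₀ ∈ {W : Pr L | below K W = below K W₀ ∧ FrAt K W σ} := by
    intro g hg
    refine ⟨below_act g W₀, ?_⟩
    have h1 := frAt_act g σ W₀ hσ
    rwa [(hmemC g).1 hg] at h1
  have hsurj : ∀ W ∈ {W : Pr L | below K W = below K W₀ ∧ FrAt K W σ}, ∃ g ∈ C, act g W₀ = W := by
    rintro W ⟨hW1, hW2⟩
    obtain ⟨g, hg⟩ := trans_act (K := K) W₀ W hW1.symm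
    refine ⟨g, ?_, hg⟩
    rw [hmemC]
    have h1 := frAt_act g σ W₀ hσ
    rw [hg] at h1
    exact frAt_unique (by rw [hW1]; exact hv) h1 hW2
  have hzC : Subgroup.zpowers σ ≤ C := by
    rw [Subgroup.zpowers_le, hmemC]
    group
  have hfinF : {W : Pr L | below K W = below K W₀ ∧ FrAt K W σ}.Finite := (below_fin K L (below K W₀)).subset fun W hW => hW.1
  have hFin : Fintype (L ≃ₐ[K] L) := Fintype.ofFinite _
  -- counting
  have hcount : (Finset.univ.filter fun g : L ≃ₐ[K] L => g ∈ C).card = hfinF.toFinset.card * orderOf σ := by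
    rw [Finset.card_eq_sum_card_fiberwise (f := fun g => act g W₀) (t := hfinF.toFinset) (fun g hg => by
      rw [Finset.mem_coe, Finset.mem_filter] at hg
      rw [Finset.mem_coe, Set.Finite.mem_toFinset]
      exact hmap g hg.2)]
    rw [Finset.sum_const_nat (m := orderOf σ)]
    intro W hW
    rw [Set.Finite.mem_toFinset] at hW
    obtain ⟨g₀, hg₀, hg₀W⟩ := hsurj W hW
    rw [← Nat.card_zpowers, Nat.card_eq_fintype_card, ← Fintype.card_coe]
    refine Fintype.card_congr ⟨fun g => ⟨g₀⁻¹ * g.1, ?_⟩, fun h => ⟨g₀ * h.1, ?_⟩, ?_, ?_⟩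
    · have hg := g.2
      rw [Finset.mem_filter, Finset.mem_filter] at hg
      apply mem_zpowers_of_act hv hσ
      rw [act_mul, hg.2, ← hg₀W, ← act_mul, inv_mul_cancel, act_one]
    · have hh := h.2
      rw [Finset.mem_filter, Finset.mem_filter]
      refine ⟨⟨Finset.mem_univ _, C.mul_mem hg₀ (hzC hh)⟩, ?_⟩
      obtain ⟨k, hk⟩ : ∃ k : ℕ, σ ^ k = h.1 := by
        have := (mem_powers_iff_mem_zpowers).2 hh
        exact (Submonoid.mem_powers_iff _ _).1 this
      rw [act_mul, ← hk, act_pow (act_frob hσ), hg₀W]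
    · intro g
      apply Subtype.ext
      simp
    · intro h
      apply Subtype.ext
      simp
  rw [Set.ncard_eq_toFinset_card _ hfinF, ← hcount, Nat.card_eq_fintype_card, Fintype.card_subtype]

end CHEB
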