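import Pool.Agent.Lib.CHEB.C1

/-! # Chebotarev density theorem, part 2: descent to the fixed field of a Frobenius element -/

open NumberField IsDedekindDomain

namespace CHEB

open CFT

set_option linter.unusedSectionVars false

variable {K : Type} [Field K] [NumberField K] {L : Type} [Field L] [NumberField L] [Algebra K L]
variable (E : Type) [Field E] [NumberField E] [Algebra K E] [Algebra E L] [IsScalarTower K E L]

variable {E} in
/-- Norms do not decrease when going up. -/
theorem Nm_below_le (w : Pr E) : Nm (below K w) ≤ Nm w := by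
  rw [Nm_below (K := K) w]
  exact Nat.le_self_pow (f_pos (K := K) w).ne' _

/-- The prime of the fixed field below a prime with Frobenius element `σ` has residue degree one. -/
theorem nm_eq {W : Pr L} {σ : L ≃ₐ[K] L} (hσE : ∀ x : E, σ (algebraMap E L x) = algebraMap E L x) (hσ : FrAt K W σ) :
    Nm (below E W) = Nm (below K W) := by
  apply le_antisymm
  · obtain ⟨q, hq⟩ : ∃ q : ℕ, q = Nm (below K W) := ⟨_, rfl⟩
    have hq2 : 2 ≤ q := by rw [hq]; exact two_le_Nm _
    rw [← hq]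
    have hfin : Finite (𝓞 E ⧸ (below E W).asIdeal) := b17_fin (below E W)
    have hmax : (below E W).asIdeal.IsMaximal := (below E W).isMaximal
    letI : Field (𝓞 E ⧸ (below E W).asIdeal) := Ideal.Quotient.field (below E W).asIdeal
    letI : Fintype (𝓞 E ⧸ (below E W).asIdeal) := Fintype.ofFinite _
    have hroot : ∀ x : 𝓞 E ⧸ (below E W).asIdeal, x ^ q = x := by
      intro x
      obtain ⟨x, rfl⟩ := Ideal.Quotient.mk_surjective x
      have h1 := hσ (algebraMap (𝓞 E) (𝓞 L) x)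
      have h2 : σ • algebraMap (𝓞 E) (𝓞 L) x = algebraMap (𝓞 E) (𝓞 L) x := by
        apply RingOfIntegers.ext
        exact hσE (x : E)
      rw [h2, ← hq, ← map_pow, ← map_sub] at h1
      have h3 : x - x ^ q ∈ (below E W).asIdeal := h1
      rw [← Ideal.Quotient.eq_zero_iff_mem, map_sub, map_pow, sub_eq_zero] at h3
      exact h3.symm
    have hcard : Fintype.card (𝓞 E ⧸ (below E W).asIdeal) = Nm (below E W) := by
      rw [← Nat.card_eq_fintype_card]
      unfold Nm
      rw [Ideal.absNorm_apply, Submodule.cardQuot_apply]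
    rw [← hcard]
    -- roots of X^q - X
    have hdeg : (Polynomial.X ^ q - Polynomial.X : Polynomial (𝓞 E ⧸ (below E W).asIdeal)).natDegree = q :=
      FiniteField.X_pow_card_sub_X_natDegree_eq _ (by omega)
    have hne : (Polynomial.X ^ q - Polynomial.X : Polynomial (𝓞 E ⧸ (below E W).asIdeal)) ≠ 0 :=
      FiniteField.X_pow_card_sub_X_ne_zero _ (by omega)
    rw [← hdeg]
    have h4 : (Finset.univ : Finset (𝓞 E ⧸ (below E W).asIdeal)).val ⊆
        (Polynomial.X ^ q - Polynomial.X : Polynomial (𝓞 E ⧸ (below E W).asIdeal)).roots := by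
      intro x _
      rw [Polynomial.mem_roots hne]
      show Polynomial.eval x _ = 0
      rw [Polynomial.eval_sub, Polynomial.eval_pow, Polynomial.eval_X, hroot x, sub_self]
    rw [← Finset.card_univ]
    exact Polynomial.card_le_degree_of_subset_roots h4
  · rw [← below_below K E L W]
    exact Nm_below_le (K := K) _

variable {E}

theorem hab_of_gen {σE : L ≃ₐ[E] L} (hgen : ∀ g : L ≃ₐ[E] L, g ∈ Subgroup.zpowers σE) (a b : L ≃ₐ[E] L) : a * b = b * a := by
  obtain ⟨i, rfl⟩ := Subgroup.mem_zpowers_iff.1 (hgen a)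
  obtain ⟨j, rfl⟩ := Subgroup.mem_zpowers_iff.1 (hgen b)
  rw [← zpow_add, ← zpow_add, add_comm]

theorem frob_below [IsGalois K L] [IsGalois E L] {σ : L ≃ₐ[K] L} {σE : L ≃ₐ[E] L} (hσE : ∀ x : L, σE x = σ x)
    (hgen : ∀ g : L ≃ₐ[E] L, g ∈ Subgroup.zpowers σE) {W : Pr L} (hW : Unr K L (below K W)) (hσ : FrAt K W σ) :
    frob E L (below E W) = σE := by
  have hunr : Unr E L (below E W) := (unr_tower K E L hW).2 _ (below_below K E L W)
  apply frob_eq_of_one (hab_of_gen hgen) hunr W rfl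
  intro x
  rw [nm_eq E (fun x => by rw [← hσE, AlgEquiv.commutes]) hσ]
  have h1 := hσ x
  have h2 : σE • x = σ • x := by
    apply RingOfIntegers.ext
    exact hσE (x : L)
  rw [h2]
  exact h1

theorem frAt_of_frob [IsGalois K L] [IsGalois E L] {σ : L ≃ₐ[K] L} {σE : L ≃ₐ[E] L} (hσE : ∀ x : L, σE x = σ x)
    (hgen : ∀ g : L ≃ₐ[E] L, g ∈ Subgroup.zpowers σE) {w : Pr E} (hw : Unr K L (below K w)) (hnm : Nm w = Nm (below K w))
    (hf : frob E L w = σE) {W : Pr L} (hW : below E W = w) : FrAt K W σ := by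
  have hunr : Unr E L w := (unr_tower K E L hw).2 _ rfl
  intro x
  have h1 := frob_spec (hab_of_gen hgen) hunr W hW x
  rw [hf] at h1
  have h2 : σE • x = σ • x := by
    apply RingOfIntegers.ext
    exact hσE (x : L)
  rw [h2, hnm, ← hW, below_below K E L W] at h1
  exact h1

theorem below_inj [IsGalois K L] [IsGalois E L] {σ : L ≃ₐ[K] L} {σE : L ≃ₐ[E] L} (hσE : ∀ x : L, σE x = σ x)
    (hgen : ∀ g : L ≃ₐ[E] L, g ∈ Subgroup.zpowers σE) {W W' : Pr L} (hσ : FrAt K W σ)
    (h : below E W = below E W') : W = W' := by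
  obtain ⟨g, hg⟩ := trans_act (K := E) W W' h
  obtain ⟨k, hk⟩ : ∃ k : ℕ, σE ^ k = g := by
    have := (mem_powers_iff_mem_zpowers).2 (hgen g)
    exact (Submonoid.mem_powers_iff _ _).1 this
  have h1 : act σE W = W := by
    have h2 := act_frob hσ
    apply act_ext
    intro x
    have h3 : x ∈ (act σ W).asIdeal ↔ x ∈ W.asIdeal := by rw [h2]
    rw [mem_act] at h3 ⊢
    have h4 : σE⁻¹ • x = σ⁻¹ • x := by
      apply RingOfIntegers.ext
      show σE⁻¹ (x : L) = σ⁻¹ (x : L)
      have h5 : σE (σ⁻¹ (x : L)) = x := by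
        rw [hσE]
        exact AlgEquiv.apply_symm_apply σ _
      have h6 : σE (σE⁻¹ (x : L)) = x := AlgEquiv.apply_symm_apply σE _
      exact σE.injective (h6.trans h5.symm)
    rw [h4]
    exact h3
  rw [← hg, ← hk, act_pow h1]

/-- The bijection between primes of `L` with Frobenius element `σ` and primes of the fixed field. -/
theorem ncard_B [IsGalois K L] [IsGalois E L] {σ : L ≃ₐ[K] L} {σE : L ≃ₐ[E] L} (hσE : ∀ x : L, σE x = σ x)
    (hgen : ∀ g : L ≃ₐ[E] L, g ∈ Subgroup.zpowers σE) (x : ℕ) :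
    Set.ncard {W : Pr L | Nm (below K W) ≤ x ∧ Unr K L (below K W) ∧ FrAt K W σ} =
      Set.ncard {w : Pr E | Nm w ≤ x ∧ Unr K L (below K w) ∧ Nm w = Nm (below K w) ∧ frob E L w = σE} := by
  have hfix : ∀ x : E, σ (algebraMap E L x) = algebraMap E L x := fun x => by rw [← hσE, AlgEquiv.commutes]
  refine Set.ncard_congr (fun W _ => below E W) ?_ ?_ ?_
  · rintro W ⟨h1, h2, h3⟩
    have h4 := nm_eq E hfix h3
    refine ⟨by rw [h4]; exact h1, by rw [below_below K E L W]; exact h2, by rw [below_below K E L W]; exact h4,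
      frob_below hσE hgen h2 h3⟩
  · rintro W W' ⟨_, _, h3⟩ _ h
    exact below_inj hσE hgen h3 h
  · rintro w ⟨h1, h2, h3, h4⟩
    obtain ⟨W, hW⟩ := below_surj (K := E) (L := L) w
    have h5 : below K W = below K w := by rw [← hW, below_below K E L W]
    refine ⟨W, ⟨?_, ?_, frAt_of_frob hσE hgen h2 h3 h4 hW⟩, hW⟩
    · rw [h5, ← h3]
      exact h1
    · rw [h5]
      exact h2

/-- Counting the primes of `K` by the primes of `L`. -/
theorem ncard_A [IsGalois K L] (σ : L ≃ₐ[K] L) (x : ℕ) (hfin : {v : Pr K | Nm v ≤ x}.Finite) :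
    Set.ncard {W : Pr L | Nm (below K W) ≤ x ∧ Unr K L (below K W) ∧ FrAt K W σ} * orderOf σ =
      Set.ncard {v : Pr K | Nm v ≤ x ∧ Unr K L v ∧ ∃ W : Pr L, below K W = v ∧ FrAt K W σ} *
        Nat.card (Subgroup.centralizer {σ}) := by
  classical
  have hA : {v : Pr K | Nm v ≤ x ∧ Unr K L v ∧ ∃ W : Pr L, below K W = v ∧ FrAt K W σ}.Finite := hfin.subset fun v hv => hv.1
  have hB : {W : Pr L | Nm (below K W) ≤ x ∧ Unr K L (below K W) ∧ FrAt K W σ}.Finite := by
    refine (Set.Finite.biUnion hfin fun v _ => below_fin K L v).subset ?_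
    rintro W ⟨h1, _, _⟩
    rw [Set.mem_iUnion₂]
    exact ⟨below K W, h1, rfl⟩
  rw [Set.ncard_eq_toFinset_card _ hA, Set.ncard_eq_toFinset_card _ hB]
  rw [Finset.card_eq_sum_card_fiberwise (f := fun W => below K W) (t := hA.toFinset) (fun W hW => by
    rw [Finset.mem_coe, Set.Finite.mem_toFinset] at hW ⊢
    exact ⟨hW.1, hW.2.1, W, rfl, hW.2.2⟩)]
  rw [Finset.sum_mul, Finset.sum_const_nat (m := Nat.card (Subgroup.centralizer {σ}))]
  intro v hv
  rw [Set.Finite.mem_toFinset] at hv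
  obtain ⟨h1, h2, W₀, h3, h4⟩ := hv
  rw [← fibre_card v h2 σ W₀ h3 h4]
  congr 1
  rw [← Set.ncard_coe_finset]
  congr 1
  ext W
  rw [Finset.mem_coe, Finset.mem_filter, Set.Finite.mem_toFinset]
  constructor
  · rintro ⟨⟨_, _, h7⟩, h8⟩
    exact ⟨h8, h7⟩
  · rintro ⟨h8, h7⟩
    exact ⟨⟨by rw [h8]; exact h1, by rw [h8]; exact h2, h7⟩, h8⟩

end CHEB
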