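import Pool.Agent.Lib.CHEB.C2
import Pool.Agent.Lib.CFT.Core
import Pool.Agent.Lib.CFT.B19
import Pool.Agent.Lib.CFT.L11
import Pool.Agent.Lib.CFTC.C10
import Pool.Agent.Lib.SZ.P4

/-! # Chebotarev density theorem, part 3: the density for cyclic extensions (Artin reciprocity and the prime ideal theorem in ray classes) -/

open NumberField IsDedekindDomain Filter Topology

namespace CHEB

open CFT

set_option linter.unusedSectionVars false
set_option linter.style.haveILetI false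

variable {E : Type} [Field E] [NumberField E] {L : Type} [Field L] [NumberField L] [Algebra E L]

/-- The density of the primes with a given Frobenius element, for an abelian group generated by one element. -/
theorem dens_cyc [IsGalois E L] {σE : L ≃ₐ[E] L} (hgen : ∀ g : L ≃ₐ[E] L, g ∈ Subgroup.zpowers σE) (S : Finset (Pr E))
    (hS : ∀ v : Pr E, ¬ Unr E L v → v ∈ S) :
    Tendsto (fun x : ℕ => (Set.ncard {w : Pr E | Nm w ≤ x ∧ w ∉ S ∧ frob E L w = σE} : ℝ) / (Nat.primeCounting x : ℝ))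
      atTop (𝓝 (1 / (orderOf σE : ℝ))) := by
  classical
  have hab := hab_of_gen hgen
  letI : CommGroup (L ≃ₐ[E] L) := { (inferInstance : Group (L ≃ₐ[E] L)) with mul_comm := hab }
  obtain ⟨N, hN⟩ := artin E L hab S hS
  obtain ⟨φ, hφ⟩ : ∃ φ : Dv E →+ Additive (L ≃ₐ[E] L), φ = art S (MonoidHom.id (L ≃ₐ[E] L)) := ⟨_, rfl⟩
  have hφ1 : ∀ w : Pr E, w ∉ S → φ (Finsupp.single w 1) = Additive.ofMul (frob E L w) := by
    intro w hw
    rw [hφ, art_single_of_notMem _ hw, one_zsmul]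
    rfl
  have hsurj : ∀ s : L ≃ₐ[E] L, ∃ D : Dv E, φ D = Additive.ofMul s := by
    intro s
    have h1 : s ∈ Subgroup.closure {s : L ≃ₐ[E] L | ∃ v : Pr E, v ∉ S ∧ Unr E L v ∧ frob E L v = s} := by
      rw [frob_gen E L hab S]
      exact Subgroup.mem_top _
    induction h1 using Subgroup.closure_induction with
    | mem s hs =>
      obtain ⟨v, hv, _, rfl⟩ := hs
      exact ⟨Finsupp.single v 1, hφ1 v hv⟩
    | one => exact ⟨0, map_zero φ⟩
    | mul a b _ _ ha hb =>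
      obtain ⟨D1, h1⟩ := ha
      obtain ⟨D2, h2⟩ := hb
      exact ⟨D1 + D2, by rw [map_add, h1, h2]; rfl⟩
    | inv a _ ha =>
      obtain ⟨D1, h1⟩ := ha
      exact ⟨-D1, by rw [map_neg, h1]; rfl⟩
  have hrange : φ.range = ⊤ := by
    rw [AddMonoidHom.range_eq_top]
    intro s
    exact hsurj s
  have hidx : φ.ker.index = orderOf σE := by
    rw [AddSubgroup.index_ker, hrange, AddSubgroup.card_top]
    exact (orderOf_eq_card_of_forall_mem_zpowers hgen).symm
  have hpos : 0 < orderOf σE := orderOf_pos _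
  have hfi : φ.ker.FiniteIndex := ⟨by rw [hidx]; exact hpos.ne'⟩
  have hker : Pray S N ≤ φ.ker := by
    rintro D ⟨x, hx, hD⟩
    rw [AddMonoidHom.mem_ker, hφ, art_congr S _ (E := dv x) hD]
    exact hN _ _ _ hx
  obtain ⟨D, hD⟩ := hsurj σE
  have hmain := CFTL.nat_dens (fun S N => pray_fin E S N) S N φ.ker hker D
  rw [hidx] at hmain
  refine hmain.congr fun x => ?_
  congr 3
  ext w
  constructor
  · rintro ⟨h1, h2, h3⟩
    refine ⟨h1, h2, ?_⟩
    rw [AddMonoidHom.mem_ker, map_sub, sub_eq_zero, hφ1 w h2, hD] at h3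
    exact Additive.ofMul.injective h3
  · rintro ⟨h1, h2, h3⟩
    refine ⟨h1, h2, ?_⟩
    rw [AddMonoidHom.mem_ker, map_sub, sub_eq_zero, hφ1 w h2, hD, h3]

/-- Few primes have smallest prime factor of the norm at most y. -/
theorem card_le' (Φ : Finset (Pr E)) (y : ℕ) (h : ∀ v ∈ Φ, (Nm v).minFac ≤ y) : Φ.card ≤ Pool.Agent.SZ.dg E * (y + 1) := by
  classical
  have hmaps : ∀ v ∈ Φ, (Nm v).minFac ∈ Finset.range (y + 1) := by
    intro v hv
    rw [Finset.mem_range]
    have h2 := h v hv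
    omega
  rw [Finset.card_eq_sum_card_fiberwise hmaps]
  calc ∑ ℓ ∈ Finset.range (y + 1), (Φ.filter fun v => (Nm v).minFac = ℓ).card
      ≤ ∑ ℓ ∈ Finset.range (y + 1), Pool.Agent.SZ.dg E := by
        refine Finset.sum_le_sum fun ℓ _ => ?_
        have h1 := Pool.Agent.SZ.e27_card ((Φ.filter fun v => (Nm v).minFac = ℓ).image fun v : Pr E => v.asIdeal) (by
          intro p hp
          rw [Finset.mem_image] at hp
          obtain ⟨v, _, rfl⟩ := hp
          exact ⟨v.isPrime, v.ne_bot⟩) ℓ (by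
          intro p hp
          rw [Finset.mem_image] at hp
          obtain ⟨v, hv, rfl⟩ := hp
          rw [Finset.mem_filter] at hv
          exact hv.2)
        rwa [Finset.card_image_of_injective _ Pool.Agent.SZ.Asm.asIdeal_inj] at h1
    _ = Pool.Agent.SZ.dg E * (y + 1) := by
        rw [Finset.sum_const, Finset.card_range, smul_eq_mul, mul_comm]

variable {K : Type} [Field K] [NumberField K] [Algebra K E] [Algebra K L] [IsScalarTower K E L]

theorem minFac_le_of_ne {w : Pr E} {x : ℕ} (hx : Nm w ≤ x) (h : Nm w ≠ Nm (below K w)) : (Nm w).minFac ≤ Nat.sqrt x := by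
  have h1 := Nm_below (K := K) w
  have h2 := f_pos (K := K) w
  have h3 : w.asIdeal.inertiaDeg (𝓞 K) ≠ 1 := by
    intro h3
    rw [h3, pow_one] at h1
    exact h h1
  have h4 := two_le_Nm (below K w)
  rw [Nat.le_sqrt']
  rw [h1, Nat.pow_minFac h2.ne']
  refine le_trans ?_ hx
  rw [h1]
  calc (Nm (below K w)).minFac ^ 2 ≤ Nm (below K w) ^ 2 := Nat.pow_le_pow_left (Nat.minFac_le (by omega)) 2
    _ ≤ Nm (below K w) ^ w.asIdeal.inertiaDeg (𝓞 K) := Nat.pow_le_pow_right (by omega) (by omega)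

/-- The density of the set `C`. -/
theorem dens_C [IsGalois K L] [IsGalois E L] {σE : L ≃ₐ[E] L} (hgen : ∀ g : L ≃ₐ[E] L, g ∈ Subgroup.zpowers σE) :
    Tendsto (fun x : ℕ => (Set.ncard {w : Pr E | Nm w ≤ x ∧ Unr K L (below K w) ∧ Nm w = Nm (below K w) ∧ frob E L w = σE} : ℝ) /
      (Nat.primeCounting x : ℝ)) atTop (𝓝 (1 / (orderOf σE : ℝ))) := by
  classical
  -- the finite set of bad primes
  have hbad : {w : Pr E | ¬ Unr K L (below K w)}.Finite := by
    have h1 : {v : Pr K | ¬ Unr K L v}.Finite := unr_fin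
    refine (Set.Finite.biUnion h1 fun v _ => below_fin K E v).subset ?_
    intro w hw
    rw [Set.mem_iUnion₂]
    exact ⟨below K w, hw, rfl⟩
  obtain ⟨S, hS⟩ : ∃ S : Finset (Pr E), S = hbad.toFinset := ⟨_, rfl⟩
  have hSmem : ∀ w : Pr E, w ∈ S ↔ ¬ Unr K L (below K w) := by
    intro w
    rw [hS, Set.Finite.mem_toFinset]
    rfl
  have hSunr : ∀ w : Pr E, ¬ Unr E L w → w ∈ S := by
    intro w hw
    rw [hSmem]
    intro h
    exact hw ((unr_tower K E L h).2 _ rfl)
  have h1 := dens_cyc hgen S hSunr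
  have h2 : Tendsto (fun x : ℕ => (Pool.Agent.SZ.dg E : ℝ) * ((Nat.sqrt x : ℝ) / (Nat.primeCounting x : ℝ) + ((Nat.primeCounting x : ℝ))⁻¹))
      atTop (𝓝 0) := by
    have e1 : Tendsto (fun x : ℕ => ((Nat.primeCounting x : ℝ))⁻¹) atTop (𝓝 0) :=
      tendsto_inv_atTop_zero.comp (tendsto_natCast_atTop_atTop.comp Nat.tendsto_primeCounting)
    have e2 := (CFTC.c10_sqrt.add e1).const_mul (Pool.Agent.SZ.dg E : ℝ)
    rwa [add_zero, mul_zero] at e2
  have h3 := h1.sub h2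
  rw [sub_zero] at h3
  refine tendsto_of_tendsto_of_tendsto_of_le_of_le h3 h1 (fun x => ?_) fun x => ?_
  · show (Set.ncard {w : Pr E | Nm w ≤ x ∧ w ∉ S ∧ frob E L w = σE} : ℝ) / (Nat.primeCounting x : ℝ) -
      (Pool.Agent.SZ.dg E : ℝ) * ((Nat.sqrt x : ℝ) / (Nat.primeCounting x : ℝ) + ((Nat.primeCounting x : ℝ))⁻¹) ≤ _
    have e0 : (Pool.Agent.SZ.dg E : ℝ) * ((Nat.sqrt x : ℝ) / (Nat.primeCounting x : ℝ) + ((Nat.primeCounting x : ℝ))⁻¹) =
        ((Pool.Agent.SZ.dg E * (Nat.sqrt x + 1) : ℕ) : ℝ) / (Nat.primeCounting x : ℝ) := by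
      push_cast
      rw [← one_div, ← add_div, mul_div_assoc]
    rw [e0, ← sub_div]
    refine div_le_div_of_nonneg_right ?_ (Nat.cast_nonneg _)
    have hfin : {w : Pr E | Nm w ≤ x}.Finite := CFTC.nm_fin x
    have hfD : {w : Pr E | Nm w ≤ x ∧ Nm w ≠ Nm (below K w)}.Finite := hfin.subset fun w hw => hw.1
    have hfC : {w : Pr E | Nm w ≤ x ∧ Unr K L (below K w) ∧ Nm w = Nm (below K w) ∧ frob E L w = σE}.Finite :=
      hfin.subset fun w hw => hw.1
    have e1 : {w : Pr E | Nm w ≤ x ∧ w ∉ S ∧ frob E L w = σE} ⊆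
        {w : Pr E | Nm w ≤ x ∧ Unr K L (below K w) ∧ Nm w = Nm (below K w) ∧ frob E L w = σE} ∪
          {w : Pr E | Nm w ≤ x ∧ Nm w ≠ Nm (below K w)} := by
      rintro w ⟨h1, h2, h3⟩
      rw [hSmem, not_not] at h2
      by_cases h4 : Nm w = Nm (below K w)
      · exact Or.inl ⟨h1, h2, h4, h3⟩
      · exact Or.inr ⟨h1, h4⟩
    have e2 := (Set.ncard_le_ncard e1 (hfC.union hfD)).trans (Set.ncard_union_le _ _)
    have e3 : Set.ncard {w : Pr E | Nm w ≤ x ∧ Nm w ≠ Nm (below K w)} ≤ Pool.Agent.SZ.dg E * (Nat.sqrt x + 1) := by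
      rw [Set.ncard_eq_toFinset_card _ hfD]
      apply card_le'
      intro w hw
      rw [Set.Finite.mem_toFinset] at hw
      exact minFac_le_of_ne hw.1 hw.2
    have e4 : (Set.ncard {w : Pr E | Nm w ≤ x ∧ w ∉ S ∧ frob E L w = σE} : ℝ) ≤
        Set.ncard {w : Pr E | Nm w ≤ x ∧ Unr K L (below K w) ∧ Nm w = Nm (below K w) ∧ frob E L w = σE} +
          ((Pool.Agent.SZ.dg E * (Nat.sqrt x + 1) : ℕ) : ℝ) := by
      exact_mod_cast e2.trans (Nat.add_le_add_left e3 _)
    linarith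
  · show (Set.ncard {w : Pr E | Nm w ≤ x ∧ Unr K L (below K w) ∧ Nm w = Nm (below K w) ∧ frob E L w = σE} : ℝ) /
      (Nat.primeCounting x : ℝ) ≤ _
    refine div_le_div_of_nonneg_right ?_ (Nat.cast_nonneg _)
    have e1 : Set.ncard {w : Pr E | Nm w ≤ x ∧ Unr K L (below K w) ∧ Nm w = Nm (below K w) ∧ frob E L w = σE} ≤
        Set.ncard {w : Pr E | Nm w ≤ x ∧ w ∉ S ∧ frob E L w = σE} := by
      refine Set.ncard_le_ncard ?_ ((CFTC.nm_fin x).subset fun w hw => hw.1)
      rintro w ⟨h1, h2, _, h4⟩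
      exact ⟨h1, by rw [hSmem, not_not]; exact h2, h4⟩
    exact_mod_cast e1

end CHEB
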