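import Pool.Agent.Lib.CHEB.C3

/-! # CHEBOTAREV DENSITY THEOREM (natural density, all Galois extensions of number fields)

`CHEB.FrAt K W s` (C1.lean): `s • x ≡ x ^ Nm (below K W) mod W` for all `x` in the ring of integers of `L` (`s` is the Frobenius element at the prime `W` of `L`).
`CFT.chebotarev`: the primes `v` of `K` which are unramified in `L` and have a prime `W` above them with Frobenius element `σ` have
natural density (number of conjugates of `σ`) / (order of the Galois group). -/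

open NumberField IsDedekindDomain Filter Topology

namespace CHEB

open CFT

set_option linter.unusedSectionVars false
set_option linter.style.haveILetI false

variable {K : Type} [Field K] [NumberField K] {L : Type} [Field L] [NumberField L] [Algebra K L]

/-- Chebotarev, with the centralizer. -/
theorem cheb_centralizer [IsGalois K L] (σ : L ≃ₐ[K] L) :
    Tendsto (fun x : ℕ => (Set.ncard {v : Pr K | Nm v ≤ x ∧ Unr K L v ∧ ∃ W : Pr L, below K W = v ∧ FrAt K W σ} : ℝ) /
      (Nat.primeCounting x : ℝ)) atTop (𝓝 (1 / (Nat.card (Subgroup.centralizer {σ}) : ℝ))) := by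
  classical
  obtain ⟨E, hE⟩ : ∃ E : IntermediateField K L, E = IntermediateField.fixedField (Subgroup.zpowers σ) := ⟨_, rfl⟩
  have hNF : NumberField E := NumberField.of_module_finite K E
  have hfix : E.fixingSubgroup = Subgroup.zpowers σ := by
    rw [hE]
    exact IntermediateField.fixingSubgroup_fixedField _
  have hGal : IsGalois E L := inferInstance
  have hσ : σ ∈ E.fixingSubgroup := by
    rw [hfix]
    exact Subgroup.mem_zpowers σ
  obtain ⟨σE, hσE0⟩ : ∃ σE : L ≃ₐ[E] L, σE = IntermediateField.fixingSubgroupEquiv E ⟨σ, hσ⟩ := ⟨_, rfl⟩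
  have hσE : ∀ x : L, σE x = σ x := by
    intro x
    rw [hσE0]
    rfl
  have hgen : ∀ g : L ≃ₐ[E] L, g ∈ Subgroup.zpowers σE := by
    intro g
    obtain ⟨⟨s, hs⟩, rfl⟩ := (IntermediateField.fixingSubgroupEquiv E).surjective g
    have hs' := hs
    rw [hfix, Subgroup.mem_zpowers_iff] at hs'
    obtain ⟨k, rfl⟩ := hs'
    rw [Subgroup.mem_zpowers_iff]
    refine ⟨k, ?_⟩
    rw [hσE0, ← map_zpow]
    rfl
  have hord : orderOf σE = orderOf σ := by
    rw [hσE0, MulEquiv.orderOf_eq]
    exact Subgroup.orderOf_mk _ _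
  have h1 := dens_C (K := K) hgen
  rw [hord] at h1
  have hpos : (0 : ℝ) < orderOf σ := by exact_mod_cast orderOf_pos σ
  have hcpos : (0 : ℝ) < Nat.card (Subgroup.centralizer {σ}) := by exact_mod_cast Nat.card_pos
  have h2 := h1.const_mul ((orderOf σ : ℝ) / (Nat.card (Subgroup.centralizer {σ}) : ℝ))
  have e1 : (orderOf σ : ℝ) / (Nat.card (Subgroup.centralizer {σ}) : ℝ) * (1 / (orderOf σ : ℝ)) =
      1 / (Nat.card (Subgroup.centralizer {σ}) : ℝ) := by
    field_simp
  rw [e1] at h2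
  refine h2.congr fun x => ?_
  have h3 := ncard_A (L := L) σ x (CFTC.nm_fin x)
  rw [ncard_B hσE hgen x] at h3
  have h4 : (Set.ncard {w : Pr E | Nm w ≤ x ∧ Unr K L (below K w) ∧ Nm w = Nm (below K w) ∧ frob E L w = σE} : ℝ) * orderOf σ =
      (Set.ncard {v : Pr K | Nm v ≤ x ∧ Unr K L v ∧ ∃ W : Pr L, below K W = v ∧ FrAt K W σ} : ℝ) *
        Nat.card (Subgroup.centralizer {σ}) := by exact_mod_cast h3
  rw [div_mul_div_comm, mul_comm (orderOf σ : ℝ), h4]
  rw [mul_comm _ (Nat.primeCounting x : ℝ)]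
  rw [mul_div_mul_right _ _ hcpos.ne']

theorem card_conj {G : Type} [Group G] [Finite G] (σ : G) :
    1 / (Nat.card (Subgroup.centralizer {σ}) : ℝ) = (Set.ncard {τ : G | IsConj σ τ} : ℝ) / (Nat.card G : ℝ) := by
  have h1 : Set.ncard {τ : G | IsConj σ τ} = (MulAction.stabilizer (ConjAct G) σ).index := by
    rw [MulAction.index_stabilizer, ConjAct.orbit_eq_carrier_conjClasses]
    rfl
  have h2 := (MulAction.stabilizer (ConjAct G) σ).card_mul_index
  rw [← Subgroup.nat_card_centralizer_nat_card_stabilizer, ← h1] at h2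
  have h3 : Nat.card (ConjAct G) = Nat.card G := rfl
  rw [h3] at h2
  have h4 : (Nat.card (Subgroup.centralizer {σ}) : ℝ) ≠ 0 := by
    exact_mod_cast (Nat.card_pos (α := Subgroup.centralizer {σ})).ne'
  have h5 : (Nat.card G : ℝ) ≠ 0 := by exact_mod_cast (Nat.card_pos (α := G)).ne'
  have h6 : (Nat.card (Subgroup.centralizer {σ}) : ℝ) * (Set.ncard {τ : G | IsConj σ τ} : ℝ) = Nat.card G := by
    exact_mod_cast h2
  rw [div_eq_div_iff h4 h5, one_mul, ← h6]
  ring

end CHEB

namespace CFT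

/-- CHEBOTAREV DENSITY THEOREM. -/
theorem chebotarev (K : Type) [Field K] [NumberField K] (L : Type) [Field L] [NumberField L] [Algebra K L] [IsGalois K L] (σ : L ≃ₐ[K] L) :
    Tendsto (fun x : ℕ => (Set.ncard {v : Pr K | Nm v ≤ x ∧ Unr K L v ∧ ∃ W : Pr L, below K W = v ∧ CHEB.FrAt K W σ} : ℝ) /
      (Nat.primeCounting x : ℝ)) atTop (𝓝 ((Set.ncard {τ : L ≃ₐ[K] L | IsConj σ τ} : ℝ) / (Nat.card (L ≃ₐ[K] L) : ℝ))) := by
  rw [← CHEB.card_conj]
  exact CHEB.cheb_centralizer σ

/-- For every element of the Galois group there are infinitely many primes with this Frobenius element. -/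
theorem chebotarev_infinite (K : Type) [Field K] [NumberField K] (L : Type) [Field L] [NumberField L] [Algebra K L] [IsGalois K L]
    (σ : L ≃ₐ[K] L) : {v : Pr K | Unr K L v ∧ ∃ W : Pr L, below K W = v ∧ CHEB.FrAt K W σ}.Infinite := by
  intro hfin
  have h1 := CHEB.cheb_centralizer (K := K) (L := L) σ
  have hπ : Tendsto (fun x : ℕ => ((Nat.primeCounting x : ℝ))⁻¹) atTop (𝓝 0) :=
    tendsto_inv_atTop_zero.comp (tendsto_natCast_atTop_atTop.comp Nat.tendsto_primeCounting)
  have h2 := hπ.const_mul (Set.ncard {v : Pr K | Unr K L v ∧ ∃ W : Pr L, below K W = v ∧ CHEB.FrAt K W σ} : ℝ)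
  rw [mul_zero] at h2
  have h3 : (1 / (Nat.card (Subgroup.centralizer {σ}) : ℝ)) ≤ 0 := by
    refine le_of_tendsto_of_tendsto' h1 h2 fun x => ?_
    rw [← div_eq_mul_inv]
    refine div_le_div_of_nonneg_right ?_ (Nat.cast_nonneg _)
    have h4 : {v : Pr K | Nm v ≤ x ∧ Unr K L v ∧ ∃ W : Pr L, below K W = v ∧ CHEB.FrAt K W σ} ⊆
        {v : Pr K | Unr K L v ∧ ∃ W : Pr L, below K W = v ∧ CHEB.FrAt K W σ} := fun v hv => hv.2
    exact_mod_cast Set.ncard_le_ncard h4 hfin
  have h4 : (0 : ℝ) < Nat.card (Subgroup.centralizer {σ}) := by exact_mod_cast Nat.card_pos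
  have h5 := one_div_pos.2 h4
  linarith

end CFT
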