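import Pool.Agent.Lib.CHEB.Main

/-! # Chebotarev density theorem over the rational numbers, in terms of ordinary primes -/

open NumberField IsDedekindDomain Filter Topology

namespace CHEB

open CFT

set_option linter.unusedSectionVars false
set_option linter.style.haveILetI false

theorem rat_prime (v : Pr ℚ) : (Rat.HeightOneSpectrum.natGenerator v).Prime ∧
    v.asIdeal = Ideal.span {((Rat.HeightOneSpectrum.natGenerator v : ℕ) : 𝓞 ℚ)} := by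
  have hp := Rat.HeightOneSpectrum.prime_natGenerator v
  refine ⟨hp, ?_⟩
  have h1 := Rat.HeightOneSpectrum.span_natGenerator v
  ext x
  rw [← Ideal.apply_mem_of_equiv_iff (f := Rat.IsIntegralClosure.intEquiv (𝓞 ℚ)), ← h1, Ideal.mem_span_singleton,
    Ideal.mem_span_singleton]
  constructor
  · rintro ⟨y, hy⟩
    refine ⟨(Rat.IsIntegralClosure.intEquiv (𝓞 ℚ)).symm y, ?_⟩
    apply (Rat.IsIntegralClosure.intEquiv (𝓞 ℚ)).injective
    rw [hy, map_mul, map_natCast, RingEquiv.apply_symm_apply]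
  · rintro ⟨y, hy⟩
    refine ⟨Rat.IsIntegralClosure.intEquiv (𝓞 ℚ) y, ?_⟩
    rw [hy, map_mul, map_natCast]

theorem rat_Nm_eq (v : Pr ℚ) : Nm v = Rat.HeightOneSpectrum.natGenerator v := by
  unfold Nm
  rw [(rat_prime v).2, Ideal.absNorm_span_natCast, RingOfIntegers.rank, Module.finrank_self, pow_one]

theorem rat_Nm_prime (v : Pr ℚ) : (Nm v).Prime := by
  rw [rat_Nm_eq]
  exact (rat_prime v).1

theorem rat_inj {v v' : Pr ℚ} (h : Nm v = Nm v') : v = v' := by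
  rw [rat_Nm_eq, rat_Nm_eq] at h
  apply HeightOneSpectrum.ext
  rw [(rat_prime v).2, (rat_prime v').2, h]

variable {L : Type} [Field L] [NumberField L]

theorem mem_of_below {v : Pr ℚ} {W : Pr L} (h : below ℚ W = v) : ((Nm v : ℕ) : 𝓞 L) ∈ W.asIdeal := by
  have h1 : ((Nm v : ℕ) : 𝓞 ℚ) ∈ (below ℚ W).asIdeal := by
    rw [h, rat_Nm_eq, (rat_prime v).2]
    exact Ideal.mem_span_singleton_self _
  have h2 : algebraMap (𝓞 ℚ) (𝓞 L) ((Nm v : ℕ) : 𝓞 ℚ) ∈ W.asIdeal := h1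
  rwa [map_natCast] at h2

theorem Nm_of_mem {p : ℕ} (hp : p.Prime) {W : Pr L} (h : (p : 𝓞 L) ∈ W.asIdeal) : Nm (below ℚ W) = p := by
  have h1 := mem_of_below (L := L) (v := below ℚ W) (W := W) rfl
  have h2 := rat_Nm_prime (below ℚ W)
  by_contra hne
  have hcop : IsCoprime (p : ℤ) ((Nm (below ℚ W) : ℕ) : ℤ) := by
    rw [Nat.isCoprime_iff_coprime]
    exact (Nat.coprime_primes hp h2).2 (fun h => hne h.symm)
  obtain ⟨u, w, huw⟩ := hcop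
  apply W.isPrime.ne_top
  rw [Ideal.eq_top_iff_one]
  have h3 : (1 : 𝓞 L) = (u : 𝓞 L) * p + w * (Nm (below ℚ W) : ℕ) := by
    have := congrArg (fun t : ℤ => (t : 𝓞 L)) huw
    push_cast at this
    exact this.symm
  rw [h3]
  exact W.asIdeal.add_mem (W.asIdeal.mul_mem_left _ h) (W.asIdeal.mul_mem_left _ h1)

end CHEB

namespace CFT

open CHEB

/-- CHEBOTAREV DENSITY THEOREM over ℚ: the primes `p` with a prime `W` of `L` above `p` such that `σ y ≡ y ^ p mod W`. -/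
theorem chebotarev_rat (L : Type) [Field L] [NumberField L] [IsGalois ℚ L] (σ : L ≃ₐ[ℚ] L) :
    Tendsto (fun x : ℕ => (Set.ncard {p : ℕ | p ≤ x ∧ p.Prime ∧ ∃ W : Pr L, (p : 𝓞 L) ∈ W.asIdeal ∧
      ∀ y : 𝓞 L, σ • y - y ^ p ∈ W.asIdeal} : ℝ) / (Nat.primeCounting x : ℝ)) atTop
      (𝓝 ((Set.ncard {τ : L ≃ₐ[ℚ] L | IsConj σ τ} : ℝ) / (Nat.card (L ≃ₐ[ℚ] L) : ℝ))) := by
  classical
  have h1 := chebotarev ℚ L σ
  have hR : {v : Pr ℚ | ¬ Unr ℚ L v}.Finite := unr_fin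
  have h2 : Tendsto (fun x : ℕ => (Set.ncard {v : Pr ℚ | ¬ Unr ℚ L v} : ℝ) * ((Nat.primeCounting x : ℝ))⁻¹) atTop (𝓝 0) := by
    have e1 : Tendsto (fun x : ℕ => ((Nat.primeCounting x : ℝ))⁻¹) atTop (𝓝 0) :=
      tendsto_inv_atTop_zero.comp (tendsto_natCast_atTop_atTop.comp Nat.tendsto_primeCounting)
    have e2 := e1.const_mul (Set.ncard {v : Pr ℚ | ¬ Unr ℚ L v} : ℝ)
    rwa [mul_zero] at e2
  have h3 := h1.add h2
  rw [add_zero] at h3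
  have hBfin : ∀ x : ℕ, {p : ℕ | p ≤ x ∧ p.Prime ∧ ∃ W : Pr L, (p : 𝓞 L) ∈ W.asIdeal ∧
      ∀ y : 𝓞 L, σ • y - y ^ p ∈ W.asIdeal}.Finite := fun x => (Set.finite_le_nat x).subset fun p hp => hp.1
  have hAfin : ∀ x : ℕ, {v : Pr ℚ | Nm v ≤ x ∧ Unr ℚ L v ∧ ∃ W : Pr L, below ℚ W = v ∧ FrAt ℚ W σ}.Finite := fun x =>
    (CFTC.nm_fin x).subset fun v hv => hv.1
  refine tendsto_of_tendsto_of_tendsto_of_le_of_le h1 h3 (fun x => ?_) fun x => ?_
  · refine div_le_div_of_nonneg_right ?_ (Nat.cast_nonneg _)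
    have e1 : Set.ncard {v : Pr ℚ | Nm v ≤ x ∧ Unr ℚ L v ∧ ∃ W : Pr L, below ℚ W = v ∧ FrAt ℚ W σ} ≤
        Set.ncard {p : ℕ | p ≤ x ∧ p.Prime ∧ ∃ W : Pr L, (p : 𝓞 L) ∈ W.asIdeal ∧ ∀ y : 𝓞 L, σ • y - y ^ p ∈ W.asIdeal} := by
      refine Set.ncard_le_ncard_of_injOn (fun v => Nm v) ?_ ?_ (hBfin x)
      · rintro v ⟨hv1, _, W, hW, hs⟩
        refine ⟨hv1, rat_Nm_prime v, W, mem_of_below hW, fun y => ?_⟩
        have := hs y
        rwa [hW] at this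
      · intro v _ v' _ h
        exact rat_inj h
    exact Nat.cast_le.2 e1
  · show _ ≤ (Set.ncard {v : Pr ℚ | Nm v ≤ x ∧ Unr ℚ L v ∧ ∃ W : Pr L, below ℚ W = v ∧ FrAt ℚ W σ} : ℝ) / (Nat.primeCounting x : ℝ) +
      (Set.ncard {v : Pr ℚ | ¬ Unr ℚ L v} : ℝ) * ((Nat.primeCounting x : ℝ))⁻¹
    rw [← div_eq_mul_inv, ← add_div]
    refine div_le_div_of_nonneg_right ?_ (Nat.cast_nonneg _)
    have e1 : {p : ℕ | p ≤ x ∧ p.Prime ∧ ∃ W : Pr L, (p : 𝓞 L) ∈ W.asIdeal ∧ ∀ y : 𝓞 L, σ • y - y ^ p ∈ W.asIdeal} ⊆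
        (fun v : Pr ℚ => Nm v) '' ({v : Pr ℚ | Nm v ≤ x ∧ Unr ℚ L v ∧ ∃ W : Pr L, below ℚ W = v ∧ FrAt ℚ W σ} ∪
          {v : Pr ℚ | ¬ Unr ℚ L v}) := by
      rintro p ⟨hp1, hp2, W, hW, hs⟩
      have e2 := Nm_of_mem hp2 hW
      refine ⟨below ℚ W, ?_, e2⟩
      by_cases hu : Unr ℚ L (below ℚ W)
      · left
        refine ⟨by rw [e2]; exact hp1, hu, W, rfl, fun y => ?_⟩
        rw [e2]
        exact hs y
      · right
        exact hu
    have e2 := (Set.ncard_le_ncard e1 (((hAfin x).union hR).image _)).trans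
      ((Set.ncard_image_le ((hAfin x).union hR)).trans (Set.ncard_union_le _ _))
    exact_mod_cast e2

end CFT
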